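import Pool.Agent.Q192.NC.Defs

/-!
# Configurations of 20 points with the face structure of the dual complex
-/

open Finset

namespace Q192.NC

variable {E : Type*} [AddCommGroup E] [Module ℝ E]

/-- The cell of a simplex: the convex hull of the points of the tetrahedra containing it. -/
def hull (p : Fin 20 → E) (S : Finset (Fin 8)) : Set E := convexHull ℝ (p '' {i | S ⊆ tet i})

structure Conf (p : Fin 20 → E) : Prop where
  face : ∀ S, IsSimplex S → ∀ f : E →ₗ[ℝ] ℝ, ∃ S' m, S ⊆ S' ∧ IsSimplex S' ∧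
    (∀ i, S' ⊆ tet i → f (p i) = m) ∧ (∀ i, S ⊆ tet i → ¬ S' ⊆ tet i → f (p i) < m)
  expo : ∀ S S', IsSimplex S → IsSimplex S' → S ⊆ S' → ∃ (f : E →ₗ[ℝ] ℝ) (m : ℝ),
    (∀ i, S' ⊆ tet i → f (p i) = m) ∧ (∀ i, S ⊆ tet i → ¬ S' ⊆ tet i → f (p i) < m)
  inter : ∀ S S', IsSimplex S → IsSimplex S' → ∀ x, x ∈ hull p S → x ∈ hull p S' →
    ∃ R, IsSimplex R ∧ S ⊆ R ∧ S' ⊆ R ∧ x ∈ hull p R
  glob : ∃ (i : Fin 20) (f : E →ₗ[ℝ] ℝ), ∀ j, j ≠ i → f (p j) < f (p i)
  sep : ∀ S x, (∀ f : E →ₗ[ℝ] ℝ, ∃ i, S ⊆ tet i ∧ f x ≤ f (p i)) → x ∈ hull p S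

theorem simplex_method {p : Fin 20 → E} (hp : Conf p) : ∀ (n : ℕ) (S : Finset (Fin 8))
    (i : Fin 20), S.Nonempty → S ⊆ tet i → (tet i \ S).card = n → ∀ f : E →ₗ[ℝ] ℝ,
    (∀ a ∈ tet i \ S, f (p (nb i a)) ≤ f (p i)) → ∀ j, S ⊆ tet j → f (p j) ≤ f (p i) := by
  intro n
  induction n using Nat.strong_induction_on with
  | _ n ih =>
  intro S i hS hSi hn f hf
  by_contra hcon
  push Not at hcon
  obtain ⟨j0, hj0, hj0f⟩ := hcon
  obtain ⟨g, m, hg1, hg2⟩ := hp.expo S (tet i) ⟨hS, i, hSi⟩ (isSimplex_tet i) hSi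
  have hgi : g (p i) = m := hg1 i le_rfl
  have hglt : ∀ j, S ⊆ tet j → j ≠ i → g (p j) < g (p i) := fun j hj hji => by
    rw [hgi]; exact hg2 j hj (fun h => hji (tet_inj _ _ h).symm)
  let J := (Finset.univ : Finset (Fin 20)).filter (fun j => S ⊆ tet j ∧ f (p i) < f (p j))
  have hJ : J.Nonempty := ⟨j0, by simp [J, hj0, hj0f]⟩
  obtain ⟨k, hkJ, hkmax⟩ :=
    J.exists_max_image (fun j => (f (p j) - f (p i)) / (g (p i) - g (p j))) hJ
  obtain ⟨hkS, hkf⟩ : S ⊆ tet k ∧ f (p i) < f (p k) := by simpa [J] using hkJ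
  have hki : k ≠ i := by rintro rfl; exact lt_irrefl _ hkf
  have hkg := hglt k hkS hki
  set t := (f (p k) - f (p i)) / (g (p i) - g (p k)) with ht
  have htpos : 0 < t := div_pos (by linarith) (by linarith)
  let h : E →ₗ[ℝ] ℝ := f + t • g
  have hh : ∀ x, h x = f x + t * g x := fun x => by simp [h]
  have hle : ∀ j, S ⊆ tet j → h (p j) ≤ h (p i) := by
    intro j hj
    rw [hh, hh]
    by_cases hji : j = i
    · rw [hji]
    have h1 := hglt j hj hji
    by_cases hfj : f (p i) < f (p j)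
    · have h2 : (f (p j) - f (p i)) / (g (p i) - g (p j)) ≤ t := hkmax j (by simp [J, hj, hfj])
      rw [div_le_iff₀ (by linarith)] at h2
      nlinarith
    · push Not at hfj
      nlinarith
  have hkeq : h (p k) = h (p i) := by
    rw [hh, hh]
    have h3 : t * (g (p i) - g (p k)) = f (p k) - f (p i) := by
      rw [ht]; exact div_mul_cancel₀ _ (by linarith : g (p i) - g (p k) ≠ 0)
    linarith
  obtain ⟨S', m', hSS', hS', h1, h2⟩ := hp.face S ⟨hS, i, hSi⟩ h
  obtain ⟨i1, hi1⟩ := hS'.2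
  have hm' : m' ≤ h (p i) := by rw [← h1 i1 hi1]; exact hle i1 (hSS'.trans hi1)
  have hS'i : S' ⊆ tet i := by
    by_contra hc
    exact absurd (h2 i hSi hc) (not_lt.2 hm')
  have hme : h (p i) = m' := h1 i hS'i
  have hS'k : S' ⊆ tet k := by
    by_contra hc
    have := h2 k hkS hc
    rw [hkeq, hme] at this
    exact lt_irrefl _ this
  have hne : S' ≠ S := by
    rintro rfl
    have hex : ∃ a, a ∈ tet i \ S' := by
      by_contra hc
      push Not at hc
      have : tet i ⊆ S' := fun a ha => by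
        by_contra hc2
        exact hc a (mem_sdiff.2 ⟨ha, hc2⟩)
      exact hki (tet_inj _ _ (this.trans hS'k)).symm
    obtain ⟨a, ha⟩ := hex
    have hai := (mem_sdiff.1 ha).1
    have hsub : S' ⊆ tet (nb i a) := by
      refine Subset.trans ?_ (nb_sub i a hai).1
      intro b hb
      refine mem_erase.2 ⟨?_, hSi hb⟩
      rintro rfl
      exact (mem_sdiff.1 ha).2 hb
    have hnei : nb i a ≠ i := by
      intro he
      have h9 := (nb_sub i a hai).2
      rw [he] at h9
      exact h9 hai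
    have e1 := h1 _ hsub
    rw [← hme, hh, hh] at e1
    have e2 := hglt _ hsub hnei
    have e3 := hf a ha
    nlinarith
  have hss : S ⊂ S' := hSS'.ssubset_of_ne (Ne.symm hne)
  have hcard : (tet i \ S').card < n := by
    rw [← hn]
    apply card_lt_card
    refine ⟨sdiff_subset_sdiff le_rfl hSS', fun hc => hne ?_⟩
    apply Subset.antisymm _ hSS'
    intro a ha
    by_contra hc2
    exact (mem_sdiff.1 (hc (mem_sdiff.2 ⟨hS'i ha, hc2⟩))).2 ha
  have := ih _ hcard S' i hS'.1 hS'i rfl f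
    (fun a ha => hf a (mem_sdiff.2 ⟨(mem_sdiff.1 ha).1, fun h => (mem_sdiff.1 ha).2 (hSS' h)⟩))
    k hS'k
  linarith

theorem sub_nb {S : Finset (Fin 8)} {i : Fin 20} (hSi : S ⊆ tet i) {a : Fin 8}
    (ha : a ∈ tet i) (haS : a ∉ S) : S ⊆ tet (nb i a) := by
  refine Subset.trans ?_ (nb_sub i a ha).1
  intro b hb
  refine mem_erase.2 ⟨?_, hSi hb⟩
  rintro rfl
  exact haS hb

variable {p : Fin 20 → E} (hp : Conf p)

include hp

theorem sm {S : Finset (Fin 8)} {i : Fin 20} (hS : S.Nonempty) (hSi : S ⊆ tet i)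
    {f : E →ₗ[ℝ] ℝ} (hf : ∀ a ∈ tet i \ S, f (p (nb i a)) ≤ f (p i)) {j : Fin 20}
    (hj : S ⊆ tet j) : f (p j) ≤ f (p i) :=
  simplex_method hp _ S i hS hSi rfl f hf j hj

/-- a functional constant on the neighbours inside a cell is constant on the cell -/
theorem const_cell {S : Finset (Fin 8)} {i : Fin 20} (hS : S.Nonempty) (hSi : S ⊆ tet i)
    {f : E →ₗ[ℝ] ℝ} (hf : ∀ a ∈ tet i \ S, f (p (nb i a)) = f (p i)) {j : Fin 20}
    (hj : S ⊆ tet j) : f (p j) = f (p i) := by
  apply le_antisymm (sm hp hS hSi (fun a ha => (hf a ha).le) hj)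
  have := sm hp (f := -f) hS hSi (fun a ha => by simp [hf a ha]) hj
  simpa using this

/-- a local maximum is a global maximum -/
theorem loc_glob {i : Fin 20} {f : E →ₗ[ℝ] ℝ}
    (hf : ∀ a ∈ tet i, f (p (nb i a)) ≤ f (p i)) (j : Fin 20) : f (p j) ≤ f (p i) := by
  obtain ⟨a, hai, haj⟩ := meet i j
  exact sm hp (S := {a}) (singleton_nonempty a) (singleton_subset_iff.2 hai)
    (fun b hb => hf b (mem_sdiff.1 hb).1) (singleton_subset_iff.2 haj)

/-- dual functionals of the edges at a vertex inside a cell -/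
theorem dual_fun {S : Finset (Fin 8)} {i : Fin 20} (hS : S.Nonempty) (hSi : S ⊆ tet i)
    {a : Fin 8} (ha : a ∈ tet i \ S) : ∃ g : E →ₗ[ℝ] ℝ, g (p (nb i a)) < g (p i) ∧
      ∀ b ∈ tet i \ S, b ≠ a → g (p (nb i b)) = g (p i) := by
  have ha1 := (mem_sdiff.1 ha).1
  have ha2 := (mem_sdiff.1 ha).2
  have hins : insert a S ⊆ tet i := insert_subset ha1 hSi
  obtain ⟨g, m, h1, h2⟩ := hp.expo S (insert a S) ⟨hS, i, hSi⟩ ⟨insert_nonempty a S, i, hins⟩
    (subset_insert a S)
  refine ⟨g, ?_, ?_⟩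
  · rw [h1 i hins]
    exact h2 _ (sub_nb hSi ha1 ha2) (fun h => (nb_sub i a ha1).2 (h (mem_insert_self a S)))
  · intro b hb hba
    have hb1 := (mem_sdiff.1 hb).1
    have hb2 := (mem_sdiff.1 hb).2
    rw [h1 i hins]
    apply h1
    apply sub_nb hins hb1
    rw [mem_insert]
    rintro (h | h)
    · exact hba h
    · exact hb2 h

/-- the differences of points of a cell lie in the span of the edges at a vertex -/
theorem mem_span {i j : Fin 20} :
    p j - p i ∈ Submodule.span ℝ ((fun a => p (nb i a) - p i) '' (tet i : Set (Fin 8))) := by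
  by_contra hc
  obtain ⟨f, hf1, hf2⟩ := Submodule.exists_le_ker_of_notMem hc
  apply hf1
  obtain ⟨a, hai, haj⟩ := meet i j
  rw [map_sub, sub_eq_zero]
  apply const_cell hp (S := {a}) (singleton_nonempty a) (singleton_subset_iff.2 hai) _
    (singleton_subset_iff.2 haj)
  intro b hb
  have := hf2 (Submodule.subset_span ⟨b, (mem_sdiff.1 hb).1, rfl⟩)
  rw [LinearMap.mem_ker, map_sub, sub_eq_zero] at this
  exact this

/-- the four edges at the strict global maximum are independent -/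
theorem indep_max {i : Fin 20} {f : E →ₗ[ℝ] ℝ} (hf : ∀ j, j ≠ i → f (p j) < f (p i))
    (c : Fin 8 → ℝ) (hc : ∑ a ∈ tet i, c a • (p (nb i a) - p i) = 0) :
    ∀ a ∈ tet i, c a = 0 := by
  have hnei : ∀ a ∈ tet i, nb i a ≠ i := by
    intro a ha he
    have h9 := (nb_sub i a ha).2
    rw [he] at h9
    exact h9 ha
  have hfa : ∀ a ∈ tet i, f (p (nb i a) - p i) < 0 := by
    intro a ha
    rw [map_sub]
    linarith [hf _ (hnei a ha)]
  -- application of a functional to the relation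
  have happ : ∀ g : E →ₗ[ℝ] ℝ, ∑ a ∈ tet i, c a * g (p (nb i a) - p i) = 0 := by
    intro g
    have := congrArg g hc
    simpa [map_sum] using this
  -- if one coefficient vanishes, all do
  have hone : ∀ a ∈ tet i, c a = 0 → ∀ b ∈ tet i, c b = 0 := by
    intro a ha ha0 b hb
    by_cases hab : b = a
    · rw [hab]; exact ha0
    obtain ⟨g, hg1, hg2⟩ := dual_fun hp (S := {a}) (singleton_nonempty a)
      (singleton_subset_iff.2 ha) (a := b) (mem_sdiff.2 ⟨hb, by simpa using hab⟩)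
    have h1 := happ g
    rw [Finset.sum_eq_single b] at h1
    · rcases mul_eq_zero.1 h1 with h2 | h2
      · exact h2
      · rw [map_sub] at h2; linarith
    · intro d hd hdb
      by_cases hda : d = a
      · rw [hda, ha0, zero_mul]
      · rw [map_sub, hg2 d (mem_sdiff.2 ⟨hd, by simpa using hda⟩) hdb, sub_self, mul_zero]
    · intro h; exact absurd hb h
  by_contra hcon
  push Not at hcon
  obtain ⟨a0, ha0, hca0⟩ := hcon
  have hall : ∀ a ∈ tet i, c a ≠ 0 := fun a ha h => hca0 (hone a ha h a0 ha0)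
  let P := (tet i).filter (fun a => 0 < c a)
  let N := (tet i).filter (fun a => ¬ 0 < c a)
  have hPi : P ⊆ tet i := filter_subset _ _
  have hNi : N ⊆ tet i := filter_subset _ _
  have hPN : ∀ a ∈ tet i, a ∈ P ∨ a ∈ N := by
    intro a ha
    by_cases h : 0 < c a
    · left; simp [P, ha, h]
    · right; simp only [N, mem_filter]; exact ⟨ha, h⟩
  have hcP : ∀ a ∈ P, 0 < c a := fun a ha => (mem_filter.1 ha).2
  have hcN : ∀ a ∈ N, c a < 0 := fun a ha =>
    lt_of_le_of_ne (not_lt.1 (mem_filter.1 ha).2) (hall a (hNi ha))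
  have hsplit : ∀ F : Fin 8 → E, ∑ a ∈ tet i, F a = ∑ a ∈ P, F a + ∑ a ∈ N, F a :=
    fun F => (sum_filter_add_sum_filter_not _ _ _).symm
  have hPne : P.Nonempty := by
    by_contra hP
    rw [not_nonempty_iff_eq_empty] at hP
    have h1 := happ f
    have h2 : 0 < ∑ a ∈ tet i, c a * f (p (nb i a) - p i) := by
      apply sum_pos
      · intro a ha
        have h3 : a ∈ N := by
          rcases hPN a ha with h | h
          · rw [hP] at h; simp at h
          · exact h
        exact mul_pos_of_neg_of_neg (hcN a h3) (hfa a ha)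
      · exact ⟨a0, ha0⟩
    linarith
  have hNne : N.Nonempty := by
    by_contra hN
    rw [not_nonempty_iff_eq_empty] at hN
    have h1 := happ f
    have h2 : ∑ a ∈ tet i, c a * f (p (nb i a) - p i) < 0 := by
      apply sum_neg
      · intro a ha
        have h3 : a ∈ P := by
          rcases hPN a ha with h | h
          · exact h
          · rw [hN] at h; simp at h
        exact mul_neg_of_pos_of_neg (hcP a h3) (hfa a ha)
      · exact ⟨a0, ha0⟩
    linarith
  -- the common point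
  set K : ℝ := ∑ a ∈ tet i, |c a| with hK
  have hKpos : 0 < K := sum_pos (fun a ha => abs_pos.2 (hall a ha)) ⟨a0, ha0⟩
  have key : ∀ (Q R : Finset (Fin 8)) (s : ℝ), Q ⊆ tet i → R ⊆ tet i → (∀ a ∈ Q, a ∉ R) →
      (∀ a ∈ Q, 0 < s * c a) → |s| = 1 →
      p i + K⁻¹ • ∑ a ∈ Q, (s * c a) • (p (nb i a) - p i) ∈ hull p R := by
    intro Q R s hQ hR hQR hpos hs
    have hsumle : ∑ a ∈ Q, s * c a ≤ K := by
      calc ∑ a ∈ Q, s * c a ≤ ∑ a ∈ Q, |c a| := by
            apply sum_le_sum
            intro a _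
            calc s * c a ≤ |s * c a| := le_abs_self _
              _ = |c a| := by rw [abs_mul, hs, one_mul]
        _ ≤ K := sum_le_sum_of_subset_of_nonneg hQ (fun _ _ _ => abs_nonneg _)
    have hconv : Convex ℝ (hull p R) := convex_convexHull ℝ _
    have hmem : ∀ j, R ⊆ tet j → p j ∈ hull p R := fun j hj =>
      subset_convexHull ℝ _ ⟨j, hj, rfl⟩
    have e : p i + K⁻¹ • ∑ a ∈ Q, (s * c a) • (p (nb i a) - p i) =
        ∑ o ∈ insertNone Q, (o.elim (1 - ∑ a ∈ Q, K⁻¹ * (s * c a)) (fun a => K⁻¹ * (s * c a))) •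
          (o.elim (p i) (fun a => p (nb i a))) := by
      rw [sum_insertNone]
      simp only [Option.elim]
      rw [sub_smul, one_smul, smul_sum, sum_smul]
      rw [sub_add_eq_add_sub, add_sub_assoc, ← sum_sub_distrib]
      congr 1
      apply sum_congr rfl
      intro a _
      rw [smul_sub, smul_sub, smul_smul, smul_smul]
    rw [e]
    apply hconv.sum_mem
    · intro o ho
      cases o with
      | none =>
        simp only [Option.elim]
        rw [← mul_sum]
        have : K⁻¹ * ∑ a ∈ Q, s * c a ≤ K⁻¹ * K :=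
          mul_le_mul_of_nonneg_left hsumle (inv_nonneg.2 hKpos.le)
        rw [inv_mul_cancel₀ hKpos.ne'] at this
        linarith
      | some a =>
        simp only [Option.elim]
        exact mul_nonneg (inv_nonneg.2 hKpos.le) (hpos a (some_mem_insertNone.1 ho)).le
    · rw [sum_insertNone]
      simp only [Option.elim]
      ring
    · intro o ho
      cases o with
      | none => exact hmem i hR
      | some a =>
        have ha := some_mem_insertNone.1 ho
        exact hmem _ (sub_nb hR (hQ ha) (hQR a ha))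
  have hz1 := key P N 1 hPi hNi (fun a ha hb => absurd (hcP a ha) (not_lt.2 (hcN a hb).le))
    (fun a ha => by rw [one_mul]; exact hcP a ha) (by simp)
  have hz2 := key N P (-1) hNi hPi (fun a ha hb => absurd (hcP a hb) (not_lt.2 (hcN a ha).le))
    (fun a ha => by have := hcN a ha; linarith) (by simp)
  have hsame : ∑ a ∈ P, (1 * c a) • (p (nb i a) - p i) =
      ∑ a ∈ N, (-1 * c a) • (p (nb i a) - p i) := by
    rw [hsplit] at hc
    simp only [one_mul, neg_mul, neg_smul, sum_neg_distrib]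
    exact eq_neg_of_add_eq_zero_left hc
  rw [← hsame] at hz2
  obtain ⟨R, hR, hNR, hPR, hzR⟩ := hp.inter N P ⟨hNne, i, hNi⟩ ⟨hPne, i, hPi⟩ _ hz1 hz2
  obtain ⟨k, hk⟩ := hR.2
  have hiR : tet i ⊆ R := fun a ha => by
    rcases hPN a ha with h | h
    · exact hPR h
    · exact hNR h
  have hik : i = k := tet_inj _ _ (hiR.trans hk)
  have hRi : R = tet i := Subset.antisymm (hik ▸ hk) hiR
  rw [hRi] at hzR
  have hsing : hull p (tet i) = {p i} := by
    have : {j | tet i ⊆ tet j} = {i} := by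
      ext j
      simp only [Set.mem_setOf_eq, Set.mem_singleton_iff]
      exact ⟨fun h => (tet_inj _ _ h).symm, fun h => h ▸ le_rfl⟩
    rw [hull, this, Set.image_singleton, convexHull_singleton]
  rw [hsing, Set.mem_singleton_iff] at hzR
  have hzero : ∑ a ∈ P, (1 * c a) • (p (nb i a) - p i) = 0 := by
    have h1 : K⁻¹ • ∑ a ∈ P, (1 * c a) • (p (nb i a) - p i) = 0 := by
      rwa [add_eq_left] at hzR
    rcases smul_eq_zero.1 h1 with h | h
    · exact absurd h (inv_ne_zero hKpos.ne')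
    · exact h
  obtain ⟨a, haP⟩ := hPne
  have haN : a ∉ N := fun hb => absurd (hcP a haP) (not_lt.2 (hcN a hb).le)
  obtain ⟨g, hg1, hg2⟩ := dual_fun hp hNne hNi (a := a) (mem_sdiff.2 ⟨hPi haP, haN⟩)
  have h1 := congrArg g hzero
  rw [map_sum, map_zero, Finset.sum_eq_single a] at h1
  · rw [one_mul, map_smul, smul_eq_mul, map_sub] at h1
    have h2 := hcP a haP
    nlinarith
  · intro b hb hba
    have hbN : b ∉ N := fun hb2 => absurd (hcP b hb) (not_lt.2 (hcN b hb2).le)
    rw [map_smul, map_sub, hg2 b (mem_sdiff.2 ⟨hPi hb, hbN⟩) hba, sub_self, smul_zero]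
  · intro h; exact absurd haP h

end Q192.NC
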