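import Mathlib

/-!
# The neighborly 3-sphere with 8 vertices and its dual: definitions
-/

namespace Q192.NC

/-- The 20 tetrahedra of the neighborly 3-sphere; the vertices A, B, C, D, E, F, G, H are the
numbers 0, 1, 2, 3, 4, 5, 6, 7. -/
def tet : Fin 20 → Finset (Fin 8) :=
  ![{0, 1, 2, 3}, {0, 1, 2, 5}, {0, 1, 3, 5}, {0, 2, 3, 6}, {0, 2, 5, 7},
    {0, 2, 6, 7}, {0, 3, 4, 5}, {0, 3, 4, 6}, {0, 4, 5, 7}, {0, 4, 6, 7},
    {1, 2, 3, 7}, {1, 2, 4, 5}, {1, 2, 4, 7}, {1, 3, 5, 6}, {1, 3, 6, 7},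
    {1, 4, 5, 6}, {1, 4, 6, 7}, {2, 3, 6, 7}, {2, 4, 5, 7}, {3, 4, 5, 6}]

/-- The nonempty faces of the simplicial complex: nonempty subsets of the tetrahedra. -/
def IsSimplex (S : Finset (Fin 8)) : Prop := S.Nonempty ∧ ∃ i, S ⊆ tet i

/-- The tetrahedron on the other side of the triangle opposite to `a` in `tet i`. -/
def nb : Fin 20 → Fin 8 → Fin 20 :=
  ![![10, 3, 2, 1, 0, 0, 0, 0],
  ![11, 4, 2, 1, 1, 0, 1, 1],
  ![13, 6, 2, 1, 2, 0, 2, 2],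
  ![17, 3, 7, 5, 3, 3, 0, 3],
  ![18, 4, 8, 4, 4, 5, 4, 1],
  ![17, 5, 9, 5, 5, 5, 4, 3],
  ![19, 6, 6, 8, 2, 7, 6, 6],
  ![19, 7, 7, 9, 3, 7, 6, 7],
  ![18, 8, 8, 8, 4, 9, 8, 6],
  ![16, 9, 9, 9, 5, 9, 8, 7],
  ![10, 17, 14, 12, 10, 10, 10, 0],
  ![11, 18, 15, 11, 1, 12, 11, 11],
  ![12, 18, 16, 12, 10, 12, 12, 11],
  ![13, 19, 13, 15, 13, 14, 2, 13],
  ![14, 17, 14, 16, 14, 14, 10, 13],
  ![15, 19, 15, 15, 13, 16, 11, 15],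
  ![16, 9, 16, 16, 14, 16, 12, 15],
  ![17, 17, 14, 5, 17, 17, 10, 3],
  ![18, 18, 8, 18, 4, 12, 18, 11],
  ![19, 19, 19, 15, 13, 7, 6, 19]]

theorem nb_sub (i : Fin 20) (a : Fin 8) (ha : a ∈ tet i) :
    (tet i).erase a ⊆ tet (nb i a) ∧ a ∉ tet (nb i a) := by
  revert i a; decide +kernel

theorem card_tet (i : Fin 20) : (tet i).card = 4 := by
  revert i; decide +kernel

theorem tet_inj (i j : Fin 20) (h : tet i ⊆ tet j) : i = j := by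
  revert i j; decide +kernel

theorem meet (i j : Fin 20) : ∃ a, a ∈ tet i ∧ a ∈ tet j := by
  revert i j; decide +kernel

theorem other (X : Fin 8) (i j : Fin 20) (hi : X ∈ tet i) (hj : X ∈ tet j) :
    ∃ k : Fin 20, X ∈ tet k ∧ (∃ Y, Y ≠ X ∧ Y ∈ tet i ∧ Y ∈ tet k) ∧
      (∃ Z, Z ≠ X ∧ Z ∈ tet j ∧ Z ∈ tet k) := by
  revert X i j; decide +kernel

theorem exists_tet (X : Fin 8) : ∃ i, X ∈ tet i := by
  revert X; decide +kernel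

theorem isSimplex_tet (i : Fin 20) : IsSimplex (tet i) :=
  ⟨Finset.card_pos.1 (by rw [card_tet]; norm_num), i, le_rfl⟩

end Q192.NC
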