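import Pool.Agent.Q192.NC.Core

/-!
# The supporting functionals of the eight cells
-/

open Finset

namespace Q192.NC

variable {E : Type*} [AddCommGroup E] [Module ℝ E] {p : Fin 20 → E}

/-- the edges at a vertex -/
def vec (p : Fin 20 → E) (i : Fin 20) : {a // a ∈ tet i} → E := fun a => p (nb i a.1) - p i

theorem mem_span' (hp : Conf p) (i j : Fin 20) :
    p j - p i ∈ Submodule.span ℝ (Set.range (vec p i)) := by
  have h := mem_span hp (i := i) (j := j)
  have e : ((fun a => p (nb i a) - p i) '' (tet i : Set (Fin 8))) = Set.range (vec p i) := by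
    ext x
    constructor
    · rintro ⟨a, ha, rfl⟩
      exact ⟨⟨a, ha⟩, rfl⟩
    · rintro ⟨a, rfl⟩
      exact ⟨a.1, a.2, rfl⟩
  rwa [e] at h

theorem span_le (hp : Conf p) (i j : Fin 20) :
    Submodule.span ℝ (Set.range (vec p i)) ≤ Submodule.span ℝ (Set.range (vec p j)) := by
  rw [Submodule.span_le]
  rintro _ ⟨a, rfl⟩
  have h : vec p i a = (p (nb i a.1) - p j) - (p i - p j) := by simp [vec]
  rw [h]
  exact Submodule.sub_mem _ (mem_span' hp _ _) (mem_span' hp _ _)

theorem li (hp : Conf p) (i : Fin 20) : LinearIndependent ℝ (vec p i) := by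
  obtain ⟨i0, f, hf⟩ := hp.glob
  have h0 : LinearIndependent ℝ (vec p i0) := by
    rw [Fintype.linearIndependent_iff]
    intro c hc a
    have h1 := indep_max hp hf (fun b => if h : b ∈ tet i0 then c ⟨b, h⟩ else 0) (by
      rw [← hc, ← Finset.sum_coe_sort]
      apply Finset.sum_congr rfl
      intro b _
      rw [dif_pos b.2]
      rfl) a.1 a.2
    rwa [dif_pos a.2] at h1
  rw [linearIndependent_iff_card_eq_finrank_span] at h0 ⊢
  have hs : Submodule.span ℝ (Set.range (vec p i)) = Submodule.span ℝ (Set.range (vec p i0)) :=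
    le_antisymm (span_le hp _ _) (span_le hp _ _)
  have hc : Fintype.card {a // a ∈ tet i} = Fintype.card {a // a ∈ tet i0} := by
    rw [Fintype.card_coe, Fintype.card_coe, card_tet, card_tet]
  rw [hc, h0, Set.finrank, Set.finrank, hs]

theorem exists_base (hp : Conf p) {X : Fin 8} {i : Fin 20} (hX : X ∈ tet i) :
    ∃ u : E →ₗ[ℝ] ℝ, u (p (nb i X)) < u (p i) ∧
      ∀ b ∈ tet i, b ≠ X → u (p (nb i b)) = u (p i) := by
  have h := linearIndependent_iff_notMem_span.1 (li hp i) ⟨X, hX⟩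
  obtain ⟨f, hf1, hf2⟩ := Submodule.exists_le_ker_of_notMem h
  have hf2' : ∀ b ∈ tet i, b ≠ X → f (p (nb i b)) = f (p i) := by
    intro b hb hbX
    have := hf2 (Submodule.subset_span ⟨⟨b, hb⟩, by simpa using hbX, rfl⟩)
    rw [LinearMap.mem_ker, vec, map_sub, sub_eq_zero] at this
    exact this
  have hf1' : f (p (nb i X)) ≠ f (p i) := by
    intro hc
    apply hf1
    rw [vec, map_sub, sub_eq_zero]
    exact hc
  rcases lt_or_gt_of_ne hf1' with h1 | h1
  · exact ⟨f, h1, hf2'⟩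
  · exact ⟨-f, by simpa using h1, fun b hb hbX => by simp [hf2' b hb hbX]⟩

theorem exists_fun (hp : Conf p) (X : Fin 8) : ∃ (u : E →ₗ[ℝ] ℝ) (c : ℝ),
    (∀ j, X ∈ tet j → u (p j) = c) ∧ (∀ j, X ∉ tet j → u (p j) < c) := by
  obtain ⟨i, hX⟩ := exists_tet X
  obtain ⟨u, hu1, hu2⟩ := exists_base hp hX
  have hcell : ∀ j, X ∈ tet j → u (p j) = u (p i) := by
    intro j hj
    apply const_cell hp (S := {X}) (singleton_nonempty X) (singleton_subset_iff.2 hX) _
      (singleton_subset_iff.2 hj)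
    intro a ha
    obtain ⟨ha1, ha2⟩ := mem_sdiff.1 ha
    exact hu2 a ha1 (by simpa using ha2)
  -- transfer of the sign
  have htrans : ∀ j k, X ∈ tet j → X ∈ tet k → (∃ Y, Y ≠ X ∧ Y ∈ tet j ∧ Y ∈ tet k) →
      u (p (nb j X)) < u (p i) → u (p (nb k X)) < u (p i) := by
    rintro j k hXj hXk ⟨Y, hYX, hYj, hYk⟩ hj
    have hSj : ({X, Y} : Finset (Fin 8)) ⊆ tet j := by
      intro b hb
      simp only [mem_insert, mem_singleton] at hb
      rcases hb with rfl | rfl <;> assumption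
    have hSk : ({X, Y} : Finset (Fin 8)) ⊆ tet k := by
      intro b hb
      simp only [mem_insert, mem_singleton] at hb
      rcases hb with rfl | rfl <;> assumption
    obtain ⟨g, m, h1, h2⟩ := hp.expo {Y} {X, Y} ⟨singleton_nonempty Y, j,
      singleton_subset_iff.2 hYj⟩ ⟨insert_nonempty _ _, j, hSj⟩
      (by intro b hb; simp only [mem_singleton] at hb; simp [hb])
    have hout : ∀ l, X ∈ tet l → Y ∈ tet l → g (p (nb l X)) < m := by
      intro l hXl hYl
      apply h2
      · rw [singleton_subset_iff]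
        exact (nb_sub l X hXl).1 (mem_erase.2 ⟨hYX, hYl⟩)
      · intro h
        exact (nb_sub l X hXl).2 (h (by simp))
    have hgj := hout j hXj hYj
    have hgk := hout k hXk hYk
    set lam : ℝ := (u (p i) - u (p (nb j X))) / (m - g (p (nb j X))) with hlam
    have hlpos : 0 < lam := div_pos (by linarith) (by linarith)
    have hlam' : lam * (m - g (p (nb j X))) = u (p i) - u (p (nb j X)) :=
      div_mul_cancel₀ _ (by linarith : m - g (p (nb j X)) ≠ 0)
    have hk := const_cell hp (S := {Y}) (i := j) (f := u - lam • g) (singleton_nonempty Y)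
      (singleton_subset_iff.2 hYj) (by
        intro b hb
        obtain ⟨hb1, hb2⟩ := mem_sdiff.1 hb
        have hbY : b ≠ Y := by simpa using hb2
        have ej : (u - lam • g) (p j) = u (p i) - lam * m := by
          simp [hcell j hXj, h1 j hSj]
        rw [ej]
        by_cases hbX : b = X
        · subst hbX
          simp only [LinearMap.sub_apply, LinearMap.smul_apply, smul_eq_mul]
          linarith
        · have hs : ({X, Y} : Finset (Fin 8)) ⊆ tet (nb j b) :=
            sub_nb hSj hb1 (by simp [hbX, hbY])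
          have hX' : X ∈ tet (nb j b) := hs (by simp)
          simp [hcell _ hX', h1 _ hs]) (j := nb k X)
      (by
        rw [singleton_subset_iff]
        exact (nb_sub k X hXk).1 (mem_erase.2 ⟨hYX, hYk⟩))
    simp only [LinearMap.sub_apply, LinearMap.smul_apply, smul_eq_mul] at hk
    rw [hcell j hXj, h1 j hSj] at hk
    nlinarith
  have hneg : ∀ j, X ∈ tet j → u (p (nb j X)) < u (p i) := by
    intro j hXj
    obtain ⟨k, hXk, h1, Z, hZ, hZj, hZk⟩ := other X i j hX hXj
    exact htrans k j hXk hXj ⟨Z, hZ, hZk, hZj⟩ (htrans i k hX hXk h1 hu1)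
  have hle : ∀ j, u (p j) ≤ u (p i) := by
    intro j
    apply loc_glob hp _ j
    intro a ha
    by_cases haX : a = X
    · subst haX; exact (hneg i hX).le
    · exact (hu2 a ha haX).le
  refine ⟨u, u (p i), hcell, ?_⟩
  intro j hXj
  refine lt_of_le_of_ne (hle j) fun heq => ?_
  have hmem : p j ∈ hull p {X} := by
    apply hp.sep
    intro f
    obtain ⟨k, hk, hkmax⟩ := (Finset.univ.filter (fun k => X ∈ tet k)).exists_max_image
      (fun k => f (p k)) ⟨i, by simp [hX]⟩
    have hXk : X ∈ tet k := by simpa using hk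
    refine ⟨k, singleton_subset_iff.2 hXk, ?_⟩
    have hw := hneg k hXk
    set ε : ℝ := (u (p i) - u (p (nb k X))) / (|f (p (nb k X)) - f (p k)| + 1) with hε
    have hd : 0 < |f (p (nb k X)) - f (p k)| + 1 := by positivity
    have hεpos : 0 < ε := div_pos (by linarith) hd
    have hε' : ε * (|f (p (nb k X)) - f (p k)| + 1) = u (p i) - u (p (nb k X)) :=
      div_mul_cancel₀ _ hd.ne'
    have h1 := loc_glob hp (i := k) (f := u + ε • f) (by
      intro a ha
      simp only [LinearMap.add_apply, LinearMap.smul_apply, smul_eq_mul]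
      by_cases haX : a = X
      · subst haX
        have h2 : ε * (f (p (nb k a)) - f (p k)) ≤ u (p i) - u (p (nb k a)) := by
          rw [← hε']
          apply mul_le_mul_of_nonneg_left _ hεpos.le
          linarith [le_abs_self (f (p (nb k a)) - f (p k))]
        have h3 := hcell k hXk
        nlinarith
      · have hXn : X ∈ tet (nb k a) := (nb_sub k a ha).1 (mem_erase.2 ⟨Ne.symm haX, hXk⟩)
        have h2 := hkmax (nb k a) (by simp [hXn])
        rw [hcell k hXk, hcell _ hXn]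
        nlinarith) j
    simp only [LinearMap.add_apply, LinearMap.smul_apply, smul_eq_mul] at h1
    rw [heq, hcell k hXk] at h1
    nlinarith
  have hmem2 : p j ∈ hull p (tet j) := subset_convexHull ℝ _ ⟨j, Subset.refl (tet j), rfl⟩
  obtain ⟨R, ⟨-, k, hRk⟩, h1, h2, -⟩ := hp.inter {X} (tet j)
    ⟨singleton_nonempty X, i, singleton_subset_iff.2 hX⟩ (isSimplex_tet j) _ hmem hmem2
  have hjk := tet_inj _ _ (h2.trans hRk)
  subst hjk
  exact hXj (hRk (singleton_subset_iff.1 h1))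


/-- an affine function is a combination of five of the supporting functions -/
theorem comb (hp : Conf p) (u : Fin 8 → E →ₗ[ℝ] ℝ) (c : Fin 8 → ℝ)
    (h1 : ∀ X j, X ∈ tet j → u X (p j) = c X) (h2 : ∀ X j, X ∉ tet j → u X (p j) < c X)
    (Z : Fin 8) : ∃ k0 k1 k2 k3 k4 : ℝ, ∀ j, u Z (p j) - c Z = k0 * (u 2 (p j) - c 2) +
      k1 * (u 3 (p j) - c 3) + k2 * (u 5 (p j) - c 5) + k3 * (u 0 (p j) - c 0) +
      k4 * (u 4 (p j) - c 4) := by
  have n2 : u 2 (p 6) - c 2 ≠ 0 := by have := h2 2 6 (by decide); intro h; linarith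
  have n0 : u 0 (p 19) - c 0 ≠ 0 := by have := h2 0 19 (by decide); intro h; linarith
  have n3 : u 3 (p 8) - c 3 ≠ 0 := by have := h2 3 8 (by decide); intro h; linarith
  have n4 : u 4 (p 2) - c 4 ≠ 0 := by have := h2 4 2 (by decide); intro h; linarith
  have n5 : u 5 (p 7) - c 5 ≠ 0 := by have := h2 5 7 (by decide); intro h; linarith
  set k0 := (u Z (p 6) - c Z) / (u 2 (p 6) - c 2) with hk0
  set k1 := (u Z (p 8) - c Z - k0 * (u 2 (p 8) - c 2)) / (u 3 (p 8) - c 3) with hk1
  set k2 := (u Z (p 7) - c Z - k0 * (u 2 (p 7) - c 2)) / (u 5 (p 7) - c 5) with hk2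
  set k3 := (u Z (p 19) - c Z - k0 * (u 2 (p 19) - c 2)) / (u 0 (p 19) - c 0) with hk3
  set k4 := (u Z (p 2) - c Z - k0 * (u 2 (p 2) - c 2)) / (u 4 (p 2) - c 4) with hk4
  have e0 : k0 * (u 2 (p 6) - c 2) = u Z (p 6) - c Z := div_mul_cancel₀ _ n2
  have e1 : k1 * (u 3 (p 8) - c 3) = u Z (p 8) - c Z - k0 * (u 2 (p 8) - c 2) :=
    div_mul_cancel₀ _ n3
  have e2 : k2 * (u 5 (p 7) - c 5) = u Z (p 7) - c Z - k0 * (u 2 (p 7) - c 2) :=
    div_mul_cancel₀ _ n5
  have e3 : k3 * (u 0 (p 19) - c 0) = u Z (p 19) - c Z - k0 * (u 2 (p 19) - c 2) :=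
    div_mul_cancel₀ _ n0
  have e4 : k4 * (u 4 (p 2) - c 4) = u Z (p 2) - c Z - k0 * (u 2 (p 2) - c 2) :=
    div_mul_cancel₀ _ n4
  refine ⟨k0, k1, k2, k3, k4, ?_⟩
  let r : E →ₗ[ℝ] ℝ := u Z - k0 • u 2 - k1 • u 3 - k2 • u 5 - k3 • u 0 - k4 • u 4
  have hr : ∀ x, r x = u Z x - k0 * u 2 x - k1 * u 3 x - k2 * u 5 x - k3 * u 0 x - k4 * u 4 x :=
    fun x => by simp [r]
  have a60 := h1 0 6 (by decide)
  have a63 := h1 3 6 (by decide)
  have a64 := h1 4 6 (by decide)
  have a65 := h1 5 6 (by decide)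
  have hr6 : r (p 6) = c Z - k0 * c 2 - k1 * c 3 - k2 * c 5 - k3 * c 0 - k4 * c 4 := by
    rw [hr, a60, a63, a64, a65]; linarith
  have hvec : ∀ a : {a // a ∈ tet 6}, r (p (nb 6 a.1)) = r (p 6) := by
    rintro ⟨a, ha⟩
    have ha' : a = 0 ∨ a = 3 ∨ a = 4 ∨ a = 5 := by
      revert ha; revert a; decide
    rw [hr6]
    rcases ha' with rfl | rfl | rfl | rfl
    · change r (p 19) = _
      rw [hr, h1 3 19 (by decide), h1 4 19 (by decide), h1 5 19 (by decide)]; linarith
    · change r (p 8) = _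
      rw [hr, h1 0 8 (by decide), h1 4 8 (by decide), h1 5 8 (by decide)]; linarith
    · change r (p 2) = _
      rw [hr, h1 0 2 (by decide), h1 3 2 (by decide), h1 5 2 (by decide)]; linarith
    · change r (p 7) = _
      rw [hr, h1 0 7 (by decide), h1 3 7 (by decide), h1 4 7 (by decide)]; linarith
  have hall : ∀ j, r (p j) = r (p 6) := by
    intro j
    have h := mem_span' hp 6 j
    have hle : Submodule.span ℝ (Set.range (vec p 6)) ≤ LinearMap.ker r := by
      rw [Submodule.span_le]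
      rintro _ ⟨a, rfl⟩
      rw [SetLike.mem_coe, LinearMap.mem_ker, vec, map_sub, sub_eq_zero]
      exact hvec a
    have := hle h
    rw [LinearMap.mem_ker, map_sub, sub_eq_zero] at this
    exact this
  intro j
  have h := hall j
  rw [hr6, hr] at h
  linarith

theorem posL {x y z : ℝ} (hy : 0 < y) (hz : 0 < z) (h : x * y = z) : 0 < x := by
  rw [← h] at hz
  exact (mul_pos_iff_of_pos_right hy).1 hz

/-- the final contradiction -/
theorem no_conf (hp : Conf p) : False := by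
  choose u c h1 h2 using exists_fun hp
  obtain ⟨g0, g1, g2, g3, g4, hG⟩ := comb hp u c h1 h2 6
  obtain ⟨k0, k1, k2, k3, k4, hH⟩ := comb hp u c h1 h2 7
  have z : ∀ X j, X ∈ tet j → u X (p j) - c X = 0 := fun X j h => by rw [h1 X j h, sub_self]
  have n : ∀ X j, X ∉ tet j → ∃ t : ℝ, 0 < t ∧ u X (p j) - c X = -t := fun X j h =>
    ⟨c X - u X (p j), by linarith [h2 X j h], by ring⟩
  -- ADEF
  have G6 := hG 6
  rw [z 0 6 (by decide), z 3 6 (by decide), z 4 6 (by decide), z 5 6 (by decide)] at G6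
  obtain ⟨c6, c6p, c6e⟩ := n 2 6 (by decide)
  obtain ⟨d6, d6p, d6e⟩ := n 6 6 (by decide)
  rw [c6e, d6e] at G6
  have g0p : 0 < g0 := posL c6p d6p (by linarith)
  -- ADEG
  have G7 := hG 7
  rw [z 0 7 (by decide), z 3 7 (by decide), z 4 7 (by decide), z 6 7 (by decide)] at G7
  obtain ⟨c7, c7p, c7e⟩ := n 2 7 (by decide)
  obtain ⟨f7, f7p, f7e⟩ := n 5 7 (by decide)
  rw [c7e, f7e] at G7
  have g2n : 0 < -g2 := posL f7p (mul_pos g0p c7p) (by linarith)
  -- ACDG
  have G3 := hG 3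
  have H3 := hH 3
  rw [z 0 3 (by decide), z 2 3 (by decide), z 3 3 (by decide), z 6 3 (by decide)] at G3
  rw [z 0 3 (by decide), z 2 3 (by decide), z 3 3 (by decide)] at H3
  obtain ⟨e3, e3p, e3e⟩ := n 4 3 (by decide)
  obtain ⟨f3, f3p, f3e⟩ := n 5 3 (by decide)
  obtain ⟨h3, h3p, h3e⟩ := n 7 3 (by decide)
  rw [e3e, f3e] at G3
  rw [e3e, f3e, h3e] at H3
  have g4p : 0 < g4 := posL e3p (mul_pos g2n f3p) (by linarith)
  have K1 : 0 < g4 * k2 - g2 * k4 := by
    -- g2 f3 + g4 e3 = 0, k2 f3 + k4 e3 = h3 > 0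
    have q1 : g2 * f3 + g4 * e3 = 0 := by linarith
    have q2 : k2 * f3 + k4 * e3 = h3 := by linarith
    have q3 : (g4 * k2 - g2 * k4) * f3 = g4 * h3 := by
      linear_combination g4 * q2 - k4 * q1
    exact posL f3p (mul_pos g4p h3p) q3
  -- DEFG
  have G19 := hG 19
  rw [z 3 19 (by decide), z 4 19 (by decide), z 5 19 (by decide), z 6 19 (by decide)] at G19
  obtain ⟨c19, c19p, c19e⟩ := n 2 19 (by decide)
  obtain ⟨a19, a19p, a19e⟩ := n 0 19 (by decide)
  rw [c19e, a19e] at G19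
  have g3n : 0 < -g3 := posL a19p (mul_pos g0p c19p) (by linarith)
  -- CDGH
  have G17 := hG 17
  have H17 := hH 17
  rw [z 2 17 (by decide), z 3 17 (by decide), z 6 17 (by decide)] at G17
  rw [z 2 17 (by decide), z 3 17 (by decide), z 7 17 (by decide)] at H17
  obtain ⟨f17, f17p, f17e⟩ := n 5 17 (by decide)
  obtain ⟨a17, a17p, a17e⟩ := n 0 17 (by decide)
  obtain ⟨e17, e17p, e17e⟩ := n 4 17 (by decide)
  rw [f17e, a17e, e17e] at G17 H17
  have K2 : 0 < g3 * k4 - g4 * k3 := by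
    have q1 : g2 * f17 + g3 * a17 + g4 * e17 = 0 := by linarith
    have q2 : k2 * f17 + k3 * a17 + k4 * e17 = 0 := by linarith
    have q3 : (g3 * k4 - g4 * k3) * a17 = (g4 * k2 - g2 * k4) * f17 := by
      linear_combination k4 * q1 - g4 * q2
    exact posL a17p (mul_pos K1 f17p) q3
  -- ACGH
  have G5 := hG 5
  have H5 := hH 5
  rw [z 0 5 (by decide), z 2 5 (by decide), z 6 5 (by decide)] at G5
  rw [z 0 5 (by decide), z 2 5 (by decide), z 7 5 (by decide)] at H5
  obtain ⟨d5, d5p, d5e⟩ := n 3 5 (by decide)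
  obtain ⟨f5, f5p, f5e⟩ := n 5 5 (by decide)
  obtain ⟨e5, e5p, e5e⟩ := n 4 5 (by decide)
  rw [d5e, f5e, e5e] at G5 H5
  have K3 : 0 < g1 * k4 - g4 * k1 := by
    have q1 : g1 * d5 + g2 * f5 + g4 * e5 = 0 := by linarith
    have q2 : k1 * d5 + k2 * f5 + k4 * e5 = 0 := by linarith
    have q3 : (g1 * k4 - g4 * k1) * d5 = (g4 * k2 - g2 * k4) * f5 := by
      linear_combination k4 * q1 - g4 * q2
    exact posL d5p (mul_pos K1 f5p) q3
  -- ACFH
  have G4 := hG 4
  have H4 := hH 4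
  rw [z 0 4 (by decide), z 2 4 (by decide), z 5 4 (by decide)] at G4
  rw [z 0 4 (by decide), z 2 4 (by decide), z 5 4 (by decide), z 7 4 (by decide)] at H4
  obtain ⟨d4, d4p, d4e⟩ := n 3 4 (by decide)
  obtain ⟨e4, e4p, e4e⟩ := n 4 4 (by decide)
  obtain ⟨s4, s4p, s4e⟩ := n 6 4 (by decide)
  rw [d4e, e4e, s4e] at G4
  rw [d4e, e4e] at H4
  have k4p : 0 < k4 := by
    have q1 : g1 * d4 + g4 * e4 = s4 := by linarith
    have q2 : k1 * d4 + k4 * e4 = 0 := by linarith
    have q3 : (g1 * k4 - g4 * k1) * d4 = k4 * s4 := by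
      linear_combination k4 * q1 - g4 * q2
    exact posL s4p (mul_pos K3 d4p) q3.symm
  have k1n : 0 < -k1 := posL d4p (mul_pos k4p e4p) (by linarith)
  -- CEFH
  have H18 := hH 18
  rw [z 2 18 (by decide), z 4 18 (by decide), z 5 18 (by decide), z 7 18 (by decide)] at H18
  obtain ⟨d18, d18p, d18e⟩ := n 3 18 (by decide)
  obtain ⟨a18, a18p, a18e⟩ := n 0 18 (by decide)
  rw [d18e, a18e] at H18
  have k3p : 0 < k3 := posL a18p (mul_pos k1n d18p) (by linarith)
  have t1 := mul_pos g3n k4p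
  have t2 := mul_pos g4p k3p
  linarith

end Q192.NC
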