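import Pool.Agent.Q192.NC.Fun

/-!
# From polytopes to configurations
-/

namespace Q192.NC

variable {E : Type*} [NormedAddCommGroup E] [NormedSpace ℝ E]

theorem exists_min (s : Finset E) : ∃ t : Finset E, t ⊆ s ∧
    convexHull ℝ (t : Set E) = convexHull ℝ (s : Set E) ∧
    ∀ v ∈ t, v ∉ convexHull ℝ ((t : Set E) \ {v}) := by
  classical
  obtain ⟨t, ht, htmin⟩ := (s.powerset.filter
    (fun t : Finset E => convexHull ℝ (t : Set E) = convexHull ℝ (s : Set E))).exists_min_image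
    (fun t => t.card) ⟨s, by simp⟩
  rw [Finset.mem_filter, Finset.mem_powerset] at ht
  refine ⟨t, ht.1, ht.2, ?_⟩
  intro v hv hc
  have hsub : (t : Set E) ⊆ convexHull ℝ ((t : Set E) \ {v}) := by
    intro x hx
    by_cases hxv : x = v
    · rw [hxv]; exact hc
    · exact subset_convexHull ℝ _ ⟨hx, hxv⟩
  have heq : convexHull ℝ ((t : Set E) \ {v}) = convexHull ℝ (t : Set E) := by
    apply Set.Subset.antisymm
    · exact convexHull_mono Set.sdiff_subset
    · exact convexHull_min hsub (convex_convexHull ℝ _)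
  have h1 : (t.erase v) ∈ s.powerset.filter
      (fun t : Finset E => convexHull ℝ (t : Set E) = convexHull ℝ (s : Set E)) := by
    rw [Finset.mem_filter, Finset.mem_powerset]
    refine ⟨(Finset.erase_subset _ _).trans ht.1, ?_⟩
    rw [Finset.coe_erase, heq, ht.2]
  have h2 := htmin _ h1
  have h3 := Finset.card_erase_lt_of_mem hv
  omega

theorem vertex_exposed (t : Finset E) {v : E} (hv : v ∈ t)
    (hc : v ∉ convexHull ℝ ((t : Set E) \ {v})) :
    ∃ f : E →L[ℝ] ℝ, ∀ x ∈ convexHull ℝ (t : Set E), x ≠ v → f x < f v := by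
  have ht : (t : Set E) = insert v ((t : Set E) \ {v}) := by
    rw [Set.insert_sdiff_singleton, Set.insert_eq_of_mem]
    exact hv
  rcases Set.eq_empty_or_nonempty ((t : Set E) \ {v}) with he | hne
  · refine ⟨0, fun x hx hxv => ?_⟩
    rw [ht, he, insert_empty_eq, convexHull_singleton] at hx
    exact absurd hx hxv
  have hfin : ((t : Set E) \ {v}).Finite := t.finite_toSet.subset Set.sdiff_subset
  obtain ⟨f, u, h1, h2⟩ := geometric_hahn_banach_closed_point (convex_convexHull ℝ _)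
    (hfin.isClosed_convexHull ℝ) hc
  refine ⟨f, fun x hx hxv => ?_⟩
  rw [ht, convexHull_insert hne] at hx
  obtain ⟨a, ha, b, hb, hx'⟩ := mem_convexJoin.1 hx
  rw [Set.mem_singleton_iff] at ha
  subst ha
  obtain ⟨α, β, hα, hβ, hαβ, rfl⟩ := hx'
  have hb' := h1 b hb
  rcases eq_or_lt_of_le hβ with h0 | h0
  · exfalso
    apply hxv
    rw [← h0] at hαβ ⊢
    rw [zero_smul, add_zero]
    have : α = 1 := by linarith
    rw [this, one_smul]
  · rw [map_add, map_smul, map_smul, smul_eq_mul, smul_eq_mul]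
    have : α = 1 - β := by linarith
    rw [this]
    nlinarith

theorem conf_of [FiniteDimensional ℝ E] (Q : Finset (Fin 8) → Set E)
    (poly : ∀ S, IsSimplex S → ∃ s : Finset E, s.Nonempty ∧ Q S = convexHull ℝ (s : Set E))
    (face : ∀ S, IsSimplex S → ∀ F : Set E, F.Nonempty → IsExposed ℝ (Q S) F →
      ∃ S', IsSimplex S' ∧ Q S' = F)
    (inter : ∀ S S', IsSimplex S → IsSimplex S' → (Q S ∩ Q S').Nonempty →
      IsExposed ℝ (Q S) (Q S ∩ Q S'))
    (ord : ∀ S S', IsSimplex S → IsSimplex S' → (S ⊆ S' ↔ Q S' ⊆ Q S)) :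
    ∃ p : Fin 20 → E, Conf p := by
  classical
  -- exposed vertices are cells
  have vert : ∀ S, IsSimplex S → ∃ t : Finset E, t.Nonempty ∧ Q S = convexHull ℝ (t : Set E) ∧
      ∀ v ∈ t, ∃ S', IsSimplex S' ∧ S ⊆ S' ∧ Q S' = {v} := by
    intro S hS
    obtain ⟨s, hs, hQ⟩ := poly S hS
    obtain ⟨t, -, hts, htv⟩ := exists_min s
    have htne : t.Nonempty := by
      rw [Finset.nonempty_iff_ne_empty]
      rintro rfl
      rw [Finset.coe_empty, convexHull_empty] at hts
      have := hs.to_set.convexHull (𝕜 := ℝ)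
      rw [← hts] at this
      exact Set.not_nonempty_empty this
    refine ⟨t, htne, by rw [hQ, hts], ?_⟩
    intro v hv
    obtain ⟨f, hf⟩ := vertex_exposed t hv (htv v hv)
    have hvQ : v ∈ Q S := by
      rw [hQ, ← hts]; exact subset_convexHull ℝ _ hv
    have hQt : Q S = convexHull ℝ (t : Set E) := by rw [hQ, hts]
    obtain ⟨S', hS', hQS'⟩ := face S hS {v} (Set.singleton_nonempty v) (fun _ => ⟨f, by
      ext x
      constructor
      · rintro rfl
        refine ⟨hvQ, fun y hy => ?_⟩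
        by_cases hyv : y = x
        · rw [hyv]
        · exact (hf y (hQt ▸ hy) hyv).le
      · rintro ⟨hx, hmax⟩
        by_contra hxv
        exact absurd (hf x (hQt ▸ hx) hxv) (not_lt.2 (hmax v hvQ))⟩)
    refine ⟨S', hS', (ord S S' hS hS').2 ?_, hQS'⟩
    rw [hQS']
    exact Set.singleton_subset_iff.2 hvQ
  have single : ∀ i, ∃ v, Q (tet i) = {v} := by
    intro i
    obtain ⟨t, ⟨v, hv⟩, -, h⟩ := vert (tet i) (isSimplex_tet i)
    obtain ⟨S', ⟨-, k, hk⟩, hiS, hQ⟩ := h v hv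
    have hik := tet_inj _ _ (hiS.trans hk)
    subst hik
    exact ⟨v, by rw [← hQ, Finset.Subset.antisymm hiS hk]⟩
  choose p hp using single
  have mem : ∀ S i, IsSimplex S → (p i ∈ Q S ↔ S ⊆ tet i) := by
    intro S i hS
    rw [ord S (tet i) hS (isSimplex_tet i), hp i, Set.singleton_subset_iff]
  have hullQ : ∀ S, IsSimplex S → Q S = hull p S := by
    intro S hS
    obtain ⟨t, -, hQ, ht⟩ := vert S hS
    have hconv : Convex ℝ (Q S) := by rw [hQ]; exact convex_convexHull ℝ _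
    apply Set.Subset.antisymm
    · rw [hQ]
      apply convexHull_mono
      intro v hv
      obtain ⟨S', hS', hSS', hQ'⟩ := ht v hv
      obtain ⟨i, hi⟩ := hS'.2
      have h1 : p i ∈ Q S' := (mem S' i hS').2 hi
      rw [hQ', Set.mem_singleton_iff] at h1
      exact ⟨i, hSS'.trans hi, h1⟩
    · apply convexHull_min _ hconv
      rintro _ ⟨i, hi, rfl⟩
      exact (mem S i hS).2 hi
  have maxhull : ∀ (S : Finset (Fin 8)) (f : E →ₗ[ℝ] ℝ) (m : ℝ),
      (∀ i, S ⊆ tet i → f (p i) ≤ m) → ∀ y ∈ hull p S, f y ≤ m := by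
    intro S f m h y hy
    have : hull p S ⊆ {y | f y ≤ m} := by
      apply convexHull_min _ (convex_halfSpace_le f.isLinear m)
      rintro _ ⟨i, hi, rfl⟩
      exact h i hi
    exact this hy
  refine ⟨p, ?_, ?_, ?_, ?_, ?_⟩
  · intro S hS f
    obtain ⟨k0, hk0⟩ := hS.2
    obtain ⟨k, hk, hkmax⟩ := (Finset.univ.filter (fun k => S ⊆ tet k)).exists_max_image
      (fun k => f (p k)) ⟨k0, by simp [hk0]⟩
    have hSk : S ⊆ tet k := by simpa using hk
    have hmax : ∀ y ∈ Q S, f y ≤ f (p k) := by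
      rw [hullQ S hS]
      exact maxhull S f _ (fun i hi => hkmax i (by simp [hi]))
    have hkQ : p k ∈ Q S := (mem S k hS).2 hSk
    obtain ⟨S', hS', hF⟩ := face S hS {x ∈ Q S | ∀ y ∈ Q S, f y ≤ f x} ⟨p k, hkQ, hmax⟩
      (fun _ => ⟨LinearMap.toContinuousLinearMap f, rfl⟩)
    refine ⟨S', f (p k), (ord S S' hS hS').2 ?_, hS', ?_, ?_⟩
    · rw [hF]; exact fun x hx => hx.1
    · intro i hi
      have h1 : p i ∈ Q S' := (mem S' i hS').2 hi
      rw [hF] at h1
      exact le_antisymm (hmax _ h1.1) (h1.2 _ hkQ)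
    · intro i hi hi'
      have h1 : p i ∉ Q S' := fun h => hi' ((mem S' i hS').1 h)
      have h2 : p i ∈ Q S := (mem S i hS).2 hi
      rw [hF] at h1
      by_contra hc
      push Not at hc
      exact h1 ⟨h2, fun y hy => (hmax y hy).trans hc⟩
  · intro S S' hS hS' hSS'
    have hsub : Q S' ⊆ Q S := (ord S S' hS hS').1 hSS'
    obtain ⟨k, hk⟩ := hS'.2
    have hkQ' : p k ∈ Q S' := (mem S' k hS').2 hk
    have hex := inter S S' hS hS' ⟨p k, hsub hkQ', hkQ'⟩
    rw [Set.inter_eq_self_of_subset_right hsub] at hex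
    obtain ⟨l, hl⟩ := hex ⟨p k, hkQ'⟩
    refine ⟨(l : E →ₗ[ℝ] ℝ), l (p k), ?_, ?_⟩
    · intro i hi
      have h1 : p i ∈ Q S' := (mem S' i hS').2 hi
      have h2 := hkQ'
      rw [hl] at h1 h2
      exact le_antisymm (h2.2 _ h1.1) (h1.2 _ h2.1)
    · intro i hi hi'
      have h1 : p i ∉ Q S' := fun h => hi' ((mem S' i hS').1 h)
      have h2 : p i ∈ Q S := (mem S i hS).2 hi
      have h3 := hkQ'
      rw [hl] at h1 h3
      by_contra hc
      push Not at hc
      exact h1 ⟨h2, fun y hy => (h3.2 y hy).trans hc⟩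
  · intro S S' hS hS' x hx hx'
    rw [← hullQ S hS] at hx
    rw [← hullQ S' hS'] at hx'
    obtain ⟨R, hR, hQR⟩ := face S hS (Q S ∩ Q S') ⟨x, hx, hx'⟩ (inter S S' hS hS' ⟨x, hx, hx'⟩)
    refine ⟨R, hR, (ord S R hS hR).2 ?_, (ord S' R hS' hR).2 ?_, ?_⟩
    · rw [hQR]; exact Set.inter_subset_left
    · rw [hQR]; exact Set.inter_subset_right
    · rw [← hullQ R hR, hQR]; exact ⟨hx, hx'⟩
  · obtain ⟨t, hts, hth, htv⟩ := exists_min (Finset.univ.image p)
    have htne : t.Nonempty := by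
      rw [Finset.nonempty_iff_ne_empty]
      rintro rfl
      rw [Finset.coe_empty, convexHull_empty] at hth
      have : p 0 ∈ convexHull ℝ ((Finset.univ.image p : Finset E) : Set E) :=
        subset_convexHull ℝ _ (by simp)
      rw [← hth] at this
      exact this
    obtain ⟨v, hv⟩ := htne
    obtain ⟨i, -, rfl⟩ := Finset.mem_image.1 (hts hv)
    obtain ⟨f, hf⟩ := vertex_exposed t hv (htv _ hv)
    refine ⟨i, (f : E →ₗ[ℝ] ℝ), fun j hj => ?_⟩
    apply hf
    · rw [hth]
      exact subset_convexHull ℝ _ (by simp)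
    · intro he
      apply hj
      symm
      apply tet_inj
      rw [← mem _ j (isSimplex_tet i), hp i, he]
      rfl
  · intro S x h
    by_contra hc
    have hfin : (p '' {i | S ⊆ tet i}).Finite := Set.toFinite _
    obtain ⟨f, u, h1, h2⟩ := geometric_hahn_banach_closed_point (convex_convexHull ℝ _)
      (hfin.isClosed_convexHull ℝ) hc
    obtain ⟨i, hi, hfi⟩ := h (f : E →ₗ[ℝ] ℝ)
    have h3 := h1 (p i) (subset_convexHull ℝ _ ⟨i, hi, rfl⟩)
    have h4 : f x ≤ f (p i) := hfi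
    linarith

end Q192.NC
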